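import Pool.Agent.TH387.EI.Defs

/-!
# EI-4b1: spectral projection of a positive contraction in a commutant
-/

set_option autoImplicit false
open scoped ComplexOrder InnerProductSpace
noncomputable section
namespace Pool.Agent.TH897.EI
universe u

variable {H : Type u} [NormedAddCommGroup H] [InnerProductSpace ℂ H] [CompleteSpace H]

theorem proj_comm (K : Submodule ℂ H) [K.HasOrthogonalProjection] (T : H →L[ℂ] H)
    (h1 : ∀ x ∈ K, T x ∈ K) (h2 : ∀ x ∈ K, (star T) x ∈ K) (x : H) :
    K.starProjection (T x) = T (K.starProjection x) := by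
  have hd : T x = T (K.starProjection x) + T (x - K.starProjection x) := by
    rw [← map_add]
    congr 1
    abel
  have h3 : K.starProjection (T (K.starProjection x)) = T (K.starProjection x) :=
    Submodule.starProjection_eq_self_iff.2 (h1 _ (K.starProjection_apply_mem x))
  have h4 : K.starProjection (T (x - K.starProjection x)) = 0 := by
    rw [Submodule.starProjection_apply_eq_zero_iff]
    intro y hy
    rw [← ContinuousLinearMap.adjoint_inner_left, ← ContinuousLinearMap.star_eq_adjoint]
    have := K.sub_starProjection_mem_orthogonal x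
    exact this _ (h2 y hy)
  rw [hd, map_add, h3, h4, add_zero]

theorem spec {x : H →L[ℂ] H} (hx : x.IsPositive) (hx1 : ‖x‖ ≤ 1) {t : ℝ}
    (ht : t ∈ spectrum ℝ x) : 0 ≤ t ∧ t ≤ 1 := by
  refine ⟨spectrum_nonneg_of_nonneg
    ((ContinuousLinearMap.nonneg_iff_isPositive x).2 hx) ht, ?_⟩
  have h := spectrum.norm_le_norm_mul_of_mem ht
  have h1 : ‖(1 : H →L[ℂ] H)‖ ≤ 1 := ContinuousLinearMap.norm_id_le
  have h2 : ‖t‖ ≤ 1 := h.trans (by nlinarith [norm_nonneg x, norm_nonneg (1 : H →L[ℂ] H)])
  exact (le_abs_self t).trans h2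

end Pool.Agent.TH897.EI

namespace Pool.Agent.TH387.EI
universe u

variable {H : Type u} [NormedAddCommGroup H] [InnerProductSpace ℂ H] [CompleteSpace H]

theorem exists_q (S : Set (H →L[ℂ] H)) (hS : ∀ y ∈ S, star y ∈ S) (x : H →L[ℂ] H)
    (hx : x.IsPositive) (hx1 : ‖x‖ ≤ 1) (hxS : Cm S x) (r : ℝ) (hr : 0 < r) (hr1 : r < 1) :
    ∃ q : H →L[ℂ] H, IsStarProjection q ∧ Cm S q ∧ (∀ v, ‖x (q v) - q v‖ ≤ r * ‖q v‖) ∧
      ∀ v, r * ‖v - q v‖ ^ 2 ≤ (⟪v, v - x v⟫_ℂ).re := by
  have hsa : IsSelfAdjoint x := hx.isSelfAdjoint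
  set h : ℝ → ℝ := fun t => max 0 (1 - r - t) with hh
  set g : ℝ → ℝ := fun t => max t (1 - r) with hg
  set m : ℝ → ℝ := fun t => max 0 (t - (1 - r)) with hm
  have ch : Continuous h := by fun_prop
  have cg : Continuous g := by fun_prop
  have cm : Continuous m := by fun_prop
  set T := cfc h x with hT
  set M := cfc m x with hM
  set K : Submodule ℂ H := LinearMap.ker (T : H →ₗ[ℂ] H) with hK
  have hKc : IsClosed (K : Set H) := T.isClosed_ker
  haveI : CompleteSpace K := hKc.completeSpace_coe
  haveI : K.HasOrthogonalProjection := Submodule.HasOrthogonalProjection.ofCompleteSpace K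
  have memK : ∀ v, v ∈ K ↔ T v = 0 := fun v => Iff.rfl
  have hcomm : ∀ y : H →L[ℂ] H, y * x = x * y → ∀ v ∈ K, y v ∈ K := by
    intro y hy v hv
    have h1 : Commute x y := hy.symm
    have h2 : T * y = y * T := (h1.cfc_real h).eq
    rw [memK] at hv ⊢
    have h3 := congrArg (fun A : H →L[ℂ] H => A v) h2
    simp only [ContinuousLinearMap.mul_apply] at h3
    rw [h3, hv, map_zero]
  have hxK : ∀ v ∈ K, x v ∈ K := hcomm x rfl
  have hqx : ∀ v, K.starProjection (x v) = x (K.starProjection v) := fun v =>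
    Pool.Agent.TH897.EI.proj_comm K x hxK (by rw [hsa.star_eq]; exact hxK) v
  refine ⟨K.starProjection, isStarProjection_starProjection, ?_, ?_, ?_⟩
  · intro y hy
    ext v
    have h1 := hcomm y (hxS y hy)
    have h2 := hcomm (star y) (hxS _ (hS y hy))
    exact (Pool.Agent.TH897.EI.proj_comm K y h1 h2 v).symm
  · intro v
    have hv : T (K.starProjection v) = 0 := K.starProjection_apply_mem v
    set w := K.starProjection v with hw
    have e1 : cfc (fun t => g t - 1) x = x + T - 1 := by
      have e2 : (fun t => g t - 1) = fun t => (t + h t) - 1 := by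
        funext t
        simp only [hg, hh]
        rcases le_total t (1 - r) with h1 | h1
        · rw [max_eq_right h1, max_eq_right (by linarith)]
          ring
        · rw [max_eq_left h1, max_eq_left (by linarith)]
          ring
      rw [e2, cfc_sub (R := ℝ) (fun t => t + h t) (fun _ => 1) x, cfc_add (R := ℝ) (a := x) (fun t => t) h,
        cfc_id' ℝ x, cfc_const_one ℝ x]
    have e3 : x w - w = (cfc (fun t => g t - 1) x) w := by
      rw [e1]
      simp [hv]
    rw [e3]
    refine (ContinuousLinearMap.le_opNorm _ _).trans ?_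
    refine mul_le_mul_of_nonneg_right (norm_cfc_le hr.le fun t ht => ?_) (norm_nonneg _)
    obtain ⟨h0, h1⟩ := Pool.Agent.TH897.EI.spec hx hx1 ht
    rw [Real.norm_eq_abs, abs_le]
    constructor
    · have : 1 - r ≤ g t := le_max_right _ _
      linarith
    · have : g t ≤ 1 := max_le h1 (by linarith)
      linarith
  · intro v
    set u := K.starProjection v with hu
    set w := v - u with hw
    have hwK : w ∈ Kᗮ := K.sub_starProjection_mem_orthogonal v
    have huK : u ∈ K := K.starProjection_apply_mem v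
    have hMK : ∀ z, M z ∈ K := by
      intro z
      rw [memK]
      have h1 : T * M = 0 := by
        rw [hT, hM, ← cfc_mul h m x]
        have : (fun t => h t * m t) = fun _ => 0 := by
          funext t
          simp only [hh, hm]
          rcases le_total t (1 - r) with h1 | h1
          · rw [max_eq_left (by linarith : t - (1 - r) ≤ 0), mul_zero]
          · rw [max_eq_left (by linarith : 1 - r - t ≤ 0), zero_mul]
        rw [this]
        exact cfc_const_zero ℝ x
      have := congrArg (fun A : H →L[ℂ] H => A z) h1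
      simpa using this
    have hMsa : IsSelfAdjoint M := cfc_predicate m x
    have hMw : M w = 0 := by
      rw [← inner_self_eq_zero (𝕜 := ℂ)]
      have h1 : ⟪M w, M w⟫_ℂ = ⟪M (M w), w⟫_ℂ := by
        have := ContinuousLinearMap.adjoint_inner_left M w (M w)
        rw [← ContinuousLinearMap.star_eq_adjoint, hMsa.star_eq] at this
        rw [this]
      rw [h1]
      exact hwK _ (hMK _)
    have hP : 0 ≤ cfc (fun t => (1 - t + m t) - r) x := by
      refine cfc_nonneg fun t _ => ?_
      simp only [hm]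
      rcases le_total t (1 - r) with h1 | h1
      · rw [max_eq_left (by linarith : t - (1 - r) ≤ 0)]
        linarith
      · rw [max_eq_right (by linarith : 0 ≤ t - (1 - r))]
        linarith
    have hP2 : cfc (fun t => (1 - t + m t) - r) x = 1 - x + M - algebraMap ℝ _ r := by
      rw [cfc_sub (R := ℝ) (fun t => 1 - t + m t) (fun _ => r) x,
        cfc_add (R := ℝ) (a := x) (fun t => 1 - t) m,
        cfc_sub (R := ℝ) (fun _ => 1) (fun t => t) x, cfc_id' ℝ x, cfc_const_one ℝ x,
        cfc_const r x]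
    rw [hP2, ContinuousLinearMap.nonneg_iff_isPositive] at hP
    have h5 := hP.re_inner_nonneg_right w
    have h6 : (1 - x + M - algebraMap ℝ (H →L[ℂ] H) r) w = (w - x w) - (r : ℂ) • w := by
      simp [hMw, Algebra.algebraMap_eq_smul_one]
    rw [h6, inner_sub_right, inner_smul_right, map_sub] at h5
    have h7 : RCLike.re ((r : ℂ) * ⟪w, w⟫_ℂ) = r * ‖w‖ ^ 2 := by
      rw [inner_self_eq_norm_sq_to_K]
      have h8 : ((r : ℂ) * ((‖w‖ : ℝ) : ℂ) ^ 2) = ((r * ‖w‖ ^ 2 : ℝ) : ℂ) := by
        push_cast
        ring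
      exact (congrArg Complex.re h8).trans (Complex.ofReal_re _)
    rw [h7] at h5
    have hux : x u ∈ K := hxK u huK
    have h8 : ⟪v, v - x v⟫_ℂ = ⟪u, u - x u⟫_ℂ + ⟪w, w - x w⟫_ℂ := by
      have hv : v = u + w := by rw [hw]; abel
      have z1 : ⟪u, w⟫_ℂ = 0 := hwK u huK
      have z2 : ⟪w, u⟫_ℂ = 0 := by rw [← inner_conj_symm, z1, map_zero]
      have z3 : ⟪w, x u⟫_ℂ = 0 := by rw [← inner_conj_symm, hwK _ hux, map_zero]
      have z4 : ⟪u, x w⟫_ℂ = 0 := by
        have := ContinuousLinearMap.adjoint_inner_left x w u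
        rw [← ContinuousLinearMap.star_eq_adjoint, hsa.star_eq] at this
        rw [← this]
        exact hwK _ hux
      rw [hv, map_add]
      simp only [inner_add_left, inner_sub_right, inner_add_right, z1, z2, z3, z4]
      ring
    rw [h8, Complex.add_re]
    have h9 : 0 ≤ (⟪u, u - x u⟫_ℂ).re := by
      rw [inner_sub_right, Complex.sub_re]
      have a1 : (⟪u, u⟫_ℂ).re = ‖u‖ ^ 2 := by
        rw [inner_self_eq_norm_sq_to_K]
        norm_cast
      have a2 : (⟪u, x u⟫_ℂ).re ≤ ‖u‖ ^ 2 := by
        refine (Complex.re_le_norm _).trans ((norm_inner_le_norm _ _).trans ?_)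
        have := x.le_opNorm u
        nlinarith [norm_nonneg u, norm_nonneg (x u)]
      linarith
    have h10 : r * ‖w‖ ^ 2 ≤ (⟪w, w - x w⟫_ℂ).re := by
      have : 0 ≤ (⟪w, w - x w⟫_ℂ).re - r * ‖w‖ ^ 2 := h5
      linarith
    linarith

end Pool.Agent.TH387.EI
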